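import Mathlib
import Pool.Agent.TH454.CM.Limit

set_option autoImplicit false

namespace Pool.Agent.Results.MP_46a7d5_co.SetCoverGap

open Filter Pool.Agent.TH454.CM

/-- For every `m ≥ 1` the normalised choice number `ch(K_{m*k})/k` of the complete `k`-partite
graph with all parts of size `m` converges, as `k → ∞`, to the integrality gap of the weighted
set cover problem on an `m`-element ground set. -/
theorem result (m : ℕ) (hm : 1 ≤ m) :
    Tendsto (fun k : ℕ => (choiceNum (SimpleGraph.completeEquipartiteGraph k m) : ℝ) / k)
      atTop (nhds (gap m)) :=
  tendsto_choiceNum m hm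

end Pool.Agent.Results.MP_46a7d5_co.SetCoverGap
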